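import Pool.Agent.N662.FP.Stm

/-! Project FL: the edges of short paths lie in a finite set (helper887). -/

set_option autoImplicit false

namespace Pool.Agent.N887.FL

open Pool.Agent.N662.FP

theorem t_FIN : S_FIN := by
  classical
  intro a N
  let B : Finset (ℤ × ℤ) := Finset.Icc (a.1 - N) (a.1 + N) ×ˢ Finset.Icc (a.2 - N) (a.2 + N)
  refine ⟨(B ×ˢ B).image (fun q => s(q.1, q.2)), ?_⟩
  intro n hn p hp0 hp i hi
  have key : ∀ j ≤ n, |(p j).1 - a.1| + |(p j).2 - a.2| ≤ j := by
    intro j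
    induction j with
    | zero =>
      intro _
      rw [hp0]
      simp
    | succ j ih =>
      intro hj
      have h1 := ih (by omega)
      have h2 := hp j (by omega)
      have h3 : |(p (j + 1)).1 - a.1| ≤ |(p (j + 1)).1 - (p j).1| + |(p j).1 - a.1| :=
        abs_sub_le _ _ _
      have h4 : |(p (j + 1)).2 - a.2| ≤ |(p (j + 1)).2 - (p j).2| + |(p j).2 - a.2| :=
        abs_sub_le _ _ _
      push_cast
      linarith
  have hB : ∀ j ≤ n, p j ∈ B := by
    intro j hj
    have h1 := key j hj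
    have h2 := abs_nonneg ((p j).1 - a.1)
    have h3 := abs_nonneg ((p j).2 - a.2)
    have h4 : (j : ℤ) ≤ N := by exact_mod_cast hj.trans hn
    have h5 : |(p j).1 - a.1| ≤ N := by linarith
    have h6 : |(p j).2 - a.2| ≤ N := by linarith
    rw [abs_le] at h5 h6
    refine Finset.mem_product.2 ⟨Finset.mem_Icc.2 ⟨?_, ?_⟩, Finset.mem_Icc.2 ⟨?_, ?_⟩⟩
    · linarith [h5.1]
    · linarith [h5.2]
    · linarith [h6.1]
    · linarith [h6.2]
  exact Finset.mem_image.2 ⟨(p i, p (i + 1)),
    Finset.mem_product.2 ⟨hB i hi.le, hB (i + 1) hi⟩, rfl⟩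

end Pool.Agent.N887.FL
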